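import Pool.Agent.H3.NB.L12
import Pool.Agent.H66.IQ.TD
import Pool.Agent.H90.AC.W

/-!
MP_0f8dca_lc, board iq_modules, row GL3: the second level of the Fourier spectrum of a game whose
leaves are formulas.
-/

set_option autoImplicit false

namespace Pool.Agent.H60.IQ

open Finset Pool.Agent.H66.IQ Pool.Agent.H6.NB
open Pool.Agent.H68.AC (PA Wt fd Ext ind)

theorem pf_GL3 (hEVS : T_EVS) (hGL2 : T_GL2) (hSWD : T_SWD) (hHTR : Pool.Agent.H6.NB.T_HTR) :
    T_GL3 := by
  intro V _ _ β k m S d w t hβ hk hw hcc hdp hC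
  have hwr : (1 : ℝ) ≤ w := by exact_mod_cast hw
  set q : ℝ := 1 / (128 * (w : ℝ)) with hq
  have hq0 : 0 < q := by positivity
  have hq1 : q ≤ 1 := by
    rw [hq, div_le_one (by positivity)]
    linarith
  have hqw : 128 * (w : ℝ) * q = 1 := by
    rw [hq]
    field_simp
  obtain ⟨Bad, hB, hG⟩ := hSWD V S d w t hw hC
  rw [← hq] at hB
  set F : (V → Bool) → ℝ := t.sv β with hF
  set K : ℝ := 4000 * β * (k : ℝ) ^ 2 * (m + 1) * (w : ℝ) ^ 2 with hK
  have hK0 : 0 ≤ K := by positivity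
  have habs : ∀ y, |F y| ≤ 1 := by
    intro y
    obtain ⟨h1, h2, h3, -⟩ := hEVS V β t y (by linarith)
    rw [abs_of_nonneg h1]
    linarith
  -- the pointwise bound
  have hpt : ∀ R : Fin (d + 1) → PA V, L12 (rst (fd R (d + 1)) F) ≤
      K + (Fintype.card V : ℝ) ^ 2 * ind (Bad R) := by
    intro R
    by_cases hbad : Bad R
    · have : ind (Bad R) = 1 := by
        unfold ind
        rw [if_pos hbad]
      rw [this, mul_one]
      have h4 := Pool.Agent.H3.NB.L12.L12_le (rst (fd R (d + 1)) F) fun y => habs _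
      linarith
    · have : ind (Bad R) = 0 := by
        unfold ind
        rw [if_neg hbad]
      rw [this, mul_zero, add_zero]
      obtain ⟨t', a1, a2, a3, -, a5⟩ := hG R hbad
      have h5 : rst (fd R (d + 1)) F = t'.sv β := by
        funext y
        rw [a5 β y]
      rw [h5]
      exact hGL2 V β k m w t' hβ hk (a1.trans hcc) (a2.trans hdp) a3
  -- summation
  have hsum : q ^ ((d + 1) * 2) * L12 F ≤ ∑ R : Fin (d + 1) → PA V,
      Wt q (1 / 2) R * L12 (rst (fd R (d + 1)) F) := by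
    unfold L12
    rw [Finset.mul_sum]
    have e1 : ∑ R : Fin (d + 1) → PA V, Wt q (1 / 2) R *
        ∑ S ∈ powersetCard 2 (univ : Finset V), |hat (rst (fd R (d + 1)) F) S| =
        ∑ S ∈ powersetCard 2 (univ : Finset V), ∑ R : Fin (d + 1) → PA V,
          Wt q (1 / 2) R * |hat (rst (fd R (d + 1)) F) S| := by
      rw [Finset.sum_comm]
      exact Finset.sum_congr rfl fun R _ => Finset.mul_sum _ _ _
    rw [e1]
    refine Finset.sum_le_sum fun S hS => ?_
    have h4 := hHTR V (d + 1) q F S hq0 hq1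
    rw [(Finset.mem_powersetCard.1 hS).2] at h4
    exact h4
  have hone' : ∑ R : Fin (d + 1) → PA V, Wt q (1 / 2) R = 1 := Pool.Agent.H90.AC.sum_Wt q (1 / 2)
  have hB' : ∑ R : Fin (d + 1) → PA V, Wt q (1 / 2) R * ind (Bad R) ≤
      2 ^ m * ((S : ℝ) + 1) ^ (d + 1) / 2 ^ w := by
    refine hB.trans ?_
    have e1 : (2 : ℝ) ^ t.dp ≤ 2 ^ m := pow_le_pow_right₀ (by norm_num) hdp
    gcongr
  have hsum2 : ∑ R : Fin (d + 1) → PA V, Wt q (1 / 2) R * L12 (rst (fd R (d + 1)) F) ≤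
      K + (Fintype.card V : ℝ) ^ 2 * (2 ^ m * ((S : ℝ) + 1) ^ (d + 1) / 2 ^ w) := by
    calc ∑ R : Fin (d + 1) → PA V, Wt q (1 / 2) R * L12 (rst (fd R (d + 1)) F) ≤
        ∑ R : Fin (d + 1) → PA V, Wt q (1 / 2) R *
          (K + (Fintype.card V : ℝ) ^ 2 * ind (Bad R)) :=
          Finset.sum_le_sum fun R _ => mul_le_mul_of_nonneg_left (hpt R)
            (Pool.Agent.H90.AC.Wt_nonneg hq0.le hq1 (by norm_num) (by norm_num) R)
      _ = (∑ R : Fin (d + 1) → PA V, Wt q (1 / 2) R) * K +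
          (Fintype.card V : ℝ) ^ 2 * ∑ R : Fin (d + 1) → PA V,
            Wt q (1 / 2) R * ind (Bad R) := by
          rw [Finset.sum_mul, Finset.mul_sum, ← Finset.sum_add_distrib]
          refine Finset.sum_congr rfl fun R _ => ?_
          ring
      _ ≤ _ := by
          rw [hone', one_mul]
          have := mul_le_mul_of_nonneg_left hB' (sq_nonneg (Fintype.card V : ℝ))
          linarith
  have hone : (128 * (w : ℝ)) ^ (2 * (d + 1)) * q ^ ((d + 1) * 2) = 1 := by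
    rw [mul_comm (d + 1) 2, ← mul_pow, hqw, one_pow]
  have hfin : K + (Fintype.card V : ℝ) ^ 2 * (2 ^ m * ((S : ℝ) + 1) ^ (d + 1) / 2 ^ w) =
      K + (Fintype.card V : ℝ) ^ 2 * 2 ^ m * ((S : ℝ) + 1) ^ (d + 1) / 2 ^ w := by ring
  calc L12 F = (128 * (w : ℝ)) ^ (2 * (d + 1)) * (q ^ ((d + 1) * 2) * L12 F) := by
        rw [← mul_assoc, hone, one_mul]
    _ ≤ (128 * (w : ℝ)) ^ (2 * (d + 1)) *
        (K + (Fintype.card V : ℝ) ^ 2 * 2 ^ m * ((S : ℝ) + 1) ^ (d + 1) / 2 ^ w) :=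
        mul_le_mul_of_nonneg_left ((hsum.trans hsum2).trans hfin.le) (by positivity)

end Pool.Agent.H60.IQ
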