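import Pool.Agent.H66.IQ.TD
import Pool.Agent.H90.AC.W

/-!
MP_0f8dca_lc, board iq_modules, row SWD: a random restriction turns the leaves into decision trees.
-/

set_option autoImplicit false

namespace Pool.Agent.H60.IQ

open Finset Pool.Agent.H66.IQ Pool.Agent.H6.NB
open Pool.Agent.H66.IP (smx gw)
open Pool.Agent.H68.AC (PA Wt fd Ext ind DT)

theorem SWD_sub {V : Type} (t : DT V) (ρ : V → Option Bool) :
    ∃ t' : DT V, t'.depth ≤ t.depth ∧
      ∀ y : V → Bool, t'.eval y = t.eval (fun v => (ρ v).getD (y v)) := by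
  induction t with
  | leaf b => exact ⟨.leaf b, le_refl _, fun y => rfl⟩
  | node v l r ihl ihr =>
    obtain ⟨l', hl, hl'⟩ := ihl
    obtain ⟨r', hr, hr'⟩ := ihr
    rcases hv : ρ v with _ | b
    · refine ⟨.node v l' r', ?_, fun y => ?_⟩
      · simp only [Pool.Agent.H68.AC.DT.depth]
        omega
      · simp only [Pool.Agent.H68.AC.DT.eval, hv, Option.getD_none, hl', hr']
    · cases b
      · refine ⟨l', ?_, fun y => ?_⟩
        · simp only [Pool.Agent.H68.AC.DT.depth]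
          omega
        · simp only [Pool.Agent.H68.AC.DT.eval, hv, Option.getD_some, cond_false, hl']
      · refine ⟨r', ?_, fun y => ?_⟩
        · simp only [Pool.Agent.H68.AC.DT.depth]
          omega
        · simp only [Pool.Agent.H68.AC.DT.eval, hv, Option.getD_some, cond_true, hr']

theorem SWD_ind (A B : Prop) : ind (A ∨ B) ≤ ind A + ind B := by
  unfold ind
  by_cases hA : A <;> by_cases hB : B <;> simp [hA, hB]

theorem SWD_or {V : Type} [Fintype V] [DecidableEq V] {D : ℕ} {q X Y : ℝ} (hq : 0 ≤ q)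
    (hq1 : q ≤ 1) (hX : 0 ≤ X) (hY : 0 ≤ Y) {a b : ℕ} {A B : (Fin D → PA V) → Prop}
    (hA : ∑ R, Wt q (1 / 2) R * ind (A R) ≤ 2 ^ a * X / Y)
    (hB : ∑ R, Wt q (1 / 2) R * ind (B R) ≤ 2 ^ b * X / Y) :
    ∑ R, Wt q (1 / 2) R * ind (A R ∨ B R) ≤ 2 ^ (max a b + 1) * X / Y := by
  have h1 : ∑ R, Wt q (1 / 2) R * ind (A R ∨ B R) ≤
      ∑ R, Wt q (1 / 2) R * ind (A R) + ∑ R, Wt q (1 / 2) R * ind (B R) := by
    rw [← Finset.sum_add_distrib]
    refine Finset.sum_le_sum fun R _ => ?_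
    rw [← mul_add]
    exact mul_le_mul_of_nonneg_left (SWD_ind _ _)
      (Pool.Agent.H90.AC.Wt_nonneg hq hq1 (by norm_num) (by norm_num) R)
  have hZ : 0 ≤ X / Y := div_nonneg hX hY
  have h2 : (2 : ℝ) ^ a ≤ 2 ^ max a b := pow_le_pow_right₀ (by norm_num) (le_max_left _ _)
  have h3 : (2 : ℝ) ^ b ≤ 2 ^ max a b := pow_le_pow_right₀ (by norm_num) (le_max_right _ _)
  have h4 : 2 ^ a * X / Y + 2 ^ b * X / Y ≤ 2 ^ (max a b + 1) * X / Y := by
    rw [mul_div_assoc, mul_div_assoc, mul_div_assoc, pow_succ]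
    nlinarith [mul_le_mul_of_nonneg_right h2 hZ, mul_le_mul_of_nonneg_right h3 hZ]
  linarith

theorem pf_SWD (hSWL : Pool.Agent.H78.XQ.T_SWL) (hDTF : T_DTF) : T_SWD := by
  intro V _ _ S d w t hw
  have hwr : (1 : ℝ) ≤ w := by exact_mod_cast hw
  have hq0 : (0 : ℝ) ≤ 1 / (128 * (w : ℝ)) := by positivity
  have hq1 : 1 / (128 * (w : ℝ)) ≤ 1 := by
    rw [div_le_one (by positivity)]
    linarith
  have hX : (0 : ℝ) ≤ ((S : ℝ) + 1) ^ (d + 1) := by positivity
  have hY : (0 : ℝ) ≤ 2 ^ w := by positivity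
  induction t with
  | lf a =>
    intro hC
    obtain ⟨Bad, hB, hT⟩ := hSWL V S d w a.f hw hC
    refine ⟨Bad, ?_, fun R hR => ?_⟩
    · change _ ≤ 2 ^ 0 * ((S : ℝ) + 1) ^ (d + 1) / 2 ^ w
      rw [pow_zero, one_mul]
      exact hB
    · obtain ⟨T, hT1, hT2⟩ := hT R hR
      obtain ⟨T', h1, h2⟩ := SWD_sub T (fd R (d + 1))
      obtain ⟨a', ha1, ha2⟩ := hDTF V T'
      have key : ∀ y, bi (a'.f y) = bi (a.f fun v => (fd R (d + 1) v).getD (y v)) := by
        intro y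
        have hext : Ext (fd R (d + 1)) fun v => (fd R (d + 1) v).getD (y v) := by
          intro v b hv
          simp only [hv, Option.getD_some]
        rw [ha1, h2, hT2 _ hext]
      exact ⟨Tr.lf a', le_refl _, le_refl _,
        Finset.sup_le fun y _ => (ha2 y).trans (h1.trans hT1), fun y => key y, fun β y => key y⟩
  | av l r ihl ihr =>
    intro hC
    obtain ⟨A, hA, hA'⟩ := ihl hC.1
    obtain ⟨B, hB, hB'⟩ := ihr hC.2
    refine ⟨fun R => A R ∨ B R, SWD_or hq0 hq1 hX hY hA hB, fun R hR => ?_⟩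
    obtain ⟨l', a1, a2, a3, a4, a5⟩ := hA' R fun h => hR (Or.inl h)
    obtain ⟨r', b1, b2, b3, b4, b5⟩ := hB' R fun h => hR (Or.inr h)
    refine ⟨Tr.av l' r', max_le_max a1 b1, Nat.add_le_add_right (max_le_max a2 b2) 1,
      max_le a3 b3, fun y => ?_, fun β y => ?_⟩
    · change (l'.ev y + r'.ev y) / 2 = _
      rw [a4, b4]; rfl
    · change (l'.sv β y + r'.sv β y) / 2 = _
      rw [a5, b5]; rfl
  | ch l r ihl ihr =>
    intro hC
    obtain ⟨A, hA, hA'⟩ := ihl hC.1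
    obtain ⟨B, hB, hB'⟩ := ihr hC.2
    refine ⟨fun R => A R ∨ B R, SWD_or hq0 hq1 hX hY hA hB, fun R hR => ?_⟩
    obtain ⟨l', a1, a2, a3, a4, a5⟩ := hA' R fun h => hR (Or.inl h)
    obtain ⟨r', b1, b2, b3, b4, b5⟩ := hB' R fun h => hR (Or.inr h)
    refine ⟨Tr.ch l' r', Nat.add_le_add_right (max_le_max a1 b1) 1,
      Nat.add_le_add_right (max_le_max a2 b2) 1, max_le a3 b3, fun y => ?_, fun β y => ?_⟩
    · change max (l'.ev y) (r'.ev y) = _
      rw [a4, b4]; rfl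
    · change smx β (l'.sv β y) (r'.sv β y) = _
      rw [a5, b5]; rfl

end Pool.Agent.H60.IQ
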